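import Mathlib
import Pool.Agent.Lib.MP_4016fc_al.Defs
import Pool.Agent.Lib.MP_4016fc_al.Main

namespace Pool.Agent.Results.MP_4016fc_al.AscendantJoin

open Pool.Agent.Lib.MP_4016fc_al

/-- A finitely generated insoluble group generated by two ascendant metabelian subgroups. -/
theorem result :
    ∃ (G : Type) (_ : Group G) (A B : Subgroup G),
      IsAscendant A ∧ IsAscendant B ∧
      derivedSeries A 2 = ⊥ ∧ derivedSeries B 2 = ⊥ ∧
      A ⊔ B = ⊤ ∧ Group.FG G ∧ ¬ Group.IsSolvable G :=
  ⟨GG, inferInstance, AA, BB, AA_asc, BB_asc, AA_metabelian, BB_metabelian, sup_eq_top, GG_fg,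
    GG_not_solvable⟩

end Pool.Agent.Results.MP_4016fc_al.AscendantJoin
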